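import Pool.Agent.Lib.MP_b07bdb_co.Ball

set_option autoImplicit false

namespace Pool.Agent.Results.MP_b07bdb_co.BallSecond

open Pool.Agent.Lib.MP_b07bdb_co.Ball Metric

/-- Some packing of unit balls in three-space has a member with at least 58 neighbours of order
at most two. -/
theorem result : ∃ P : Set (EuclideanSpace ℝ (Fin 3)), (P.Pairwise fun p q =>
      Disjoint (interior (closedBall p 1)) (interior (closedBall q 1))) ∧
    ∃ A : P, (58 : ℕ∞) ≤ {B : P | ∃ j : ℕ, 1 ≤ j ∧ j ≤ 2 ∧
      (SimpleGraph.fromRel fun p q : P => dist p.1 q.1 = 2).edist A B = j}.encard := by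
  refine cert (pts.map emb) (emb (0, 0, 0)) 58 (List.mem_map_of_mem List.mem_cons_self)
    (by rw [List.length_map, chk_len]) (List.pairwise_map.2 (chk_sep.imp emb_ge)) fun p hp => ?_
  obtain ⟨r, hr, rfl⟩ := List.mem_map.1 hp
  rcases chk_par r hr with h | h | ⟨q, hq, h, h'⟩
  · exact Or.inl (congrArg emb h)
  · exact Or.inr (Or.inl (emb_eq h))
  · exact Or.inr (Or.inr ⟨_, List.mem_map_of_mem hq, emb_eq h, emb_eq h'⟩)

end Pool.Agent.Results.MP_b07bdb_co.BallSecond
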