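import Pool.Agent.Lib.MP_b07bdb_co.Ball4

set_option autoImplicit false

namespace Pool.Agent.Results.MP_b07bdb_co.BallSecondFour

open Pool.Agent.Lib.MP_b07bdb_co Ball4 Metric

/-- Some packing of unit balls in four-space has a member with at least 175 neighbours of order
at most two. -/
theorem result : ∃ P : Set (EuclideanSpace ℝ (Fin 4)), (P.Pairwise fun p q =>
      Disjoint (interior (closedBall p 1)) (interior (closedBall q 1))) ∧
    ∃ A : P, (175 : ℕ∞) ≤ {B : P | ∃ j : ℕ, 1 ≤ j ∧ j ≤ 2 ∧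
      (SimpleGraph.fromRel fun p q : P => dist p.1 q.1 = 2).edist A B = j}.encard := by
  have ho := chk_pos o List.mem_cons_self
  have hf : ∀ q ∈ fst, q ∈ o :: (fst ++ out) := fun q hq =>
    List.mem_cons_of_mem _ (List.mem_append_left _ hq)
  refine Ball.cert ((o :: (fst ++ out)).map emb) (emb o) 175
    (List.mem_map_of_mem List.mem_cons_self) (by rw [List.length_map, chk_len])
    (List.pairwise_map.2 (chk_sep.imp_of_mem fun hp hq =>
      emb_ge (chk_pos _ hp) (chk_pos _ hq))) fun p hp => ?_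
  obtain ⟨r, hr, rfl⟩ := List.mem_map.1 hp
  rcases List.mem_cons.1 hr with h | h
  · exact Or.inl (congrArg emb h)
  rcases List.mem_append.1 h with h | h
  · exact Or.inr (Or.inl (emb_eq ho (chk_pos _ hr) (chk_fst r h)))
  · obtain ⟨q, hq, h'⟩ := chk_out r h
    exact Or.inr (Or.inr ⟨_, List.mem_map_of_mem (hf q hq),
      emb_eq ho (chk_pos _ (hf q hq)) (chk_fst q hq), emb_eq (chk_pos _ (hf q hq)) (chk_pos _ hr) h'⟩)

end Pool.Agent.Results.MP_b07bdb_co.BallSecondFour
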