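import Pool.Agent.Lib.MP_b07bdb_co.Main

set_option autoImplicit false

namespace Pool.Agent.Results.MP_b07bdb_co.BeatsHexagonal

open Pool.Agent.Lib.MP_b07bdb_co

/-- For every `k ≥ 7` some unit disk packing has a member with more than `3 k (k + 1)`
neighbours of order at most `k`. -/
theorem result (k : ℕ) (hk : 7 ≤ k) : ∃ P : Set Plane, IsPacking P ∧
    ∃ A : P, ((3 * k * (k + 1) + 1 : ℕ) : ℕ∞) ≤ (neighborsUpTo P A k).encard :=
  beats_hexagonal k hk

end Pool.Agent.Results.MP_b07bdb_co.BeatsHexagonal
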