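import Pool.Agent.Lib.MP_b07bdb_co.Nk.Main

set_option autoImplicit false

namespace Pool.Agent.Results.MP_b07bdb_co.SecondOrder

open Pool.Agent.Lib.MP_b07bdb_co.Nk

/-- The second order term of the `k`-th Newton number of the disk has the exact exponent `4 / 3`:
`N_k = (2 π / √3) k ^ 2 - k ^ (4 / 3 + o(1))`, the deficit lying between `k ^ (4 / 3 - ε)` and
`C k ^ (4 / 3)`. -/
theorem result : ∃ C : ℝ, ∀ ε : ℝ, 0 < ε → ∀ᶠ k : ℕ in Filter.atTop, ∃ N : ℕ, newton k = N ∧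
    (k : ℝ) ^ ((4 : ℝ) / 3 - ε) ≤ 2 * Real.pi / √3 * (k : ℝ) ^ 2 - N ∧
    2 * Real.pi / √3 * (k : ℝ) ^ 2 - N ≤ C * (k : ℝ) ^ ((4 : ℝ) / 3) :=
  second_order

end Pool.Agent.Results.MP_b07bdb_co.SecondOrder
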